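import Mathlib
import Pool.Agent.H759R2.Kad.Props
import Pool.Agent.H759R2.Kad.Props2
import Pool.Agent.H559R2.Kad.Symm

open scoped ComplexOrder InnerProductSpace ComplexConjugate
open Finset

noncomputable section

namespace H759R2.Kad

universe u v

theorem prove2_main (h1 : T2_rec.{u, v}) (h2 : T2_growth) : T2_main.{u, v} := by
  intro A _ _ _ τ hτ hdix H _ _ _ w hw δ hδ hδ1 hwb n hn X
  let S : ℕ → Set ℝ := fun m => {c | 0 ≤ c ∧ ∀ Y : CStarMatrix (Fin m) (Fin m) A,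
    ‖amp w (Fin m) Y‖ ≤ c * ‖Y‖}
  let B : ℕ → ℝ := fun m => sInf (S m)
  have hne : ∀ m, (m : ℝ) * (1 + δ) ∈ S m := fun m =>
    ⟨by positivity, fun Y => amp_norm_le w (by linarith) hwb m Y⟩
  have hbdd : ∀ m, BddBelow (S m) := fun m => ⟨0, fun c hc => hc.1⟩
  have hB0 : ∀ m, 0 ≤ B m := fun m => le_csInf ⟨_, hne m⟩ (fun c hc => hc.1)
  have hBle : ∀ m c, c ∈ S m → B m ≤ c := fun m c hc => csInf_le (hbdd m) hc
  have hBm : ∀ m (Y : CStarMatrix (Fin m) (Fin m) A), ‖amp w (Fin m) Y‖ ≤ B m * ‖Y‖ := by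
    intro m Y
    rcases (norm_nonneg Y).eq_or_lt with hY | hY
    · have := (hne m).2 Y
      rw [← hY, mul_zero] at this ⊢
      exact this
    · rw [← div_le_iff₀ hY]
      apply le_csInf ⟨_, hne m⟩
      intro c hc
      rw [div_le_iff₀ hY]
      exact hc.2 Y
  have hgr := h2 δ B hδ hδ1 hB0
    (fun m => (hBle m _ (hne m)).trans (by
      have : (0 : ℝ) ≤ m := Nat.cast_nonneg m
      nlinarith))
    (fun Q m l hQ hq hm hl => by
      apply hBle
      have := hB0 l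
      exact ⟨by positivity, h1 A H w τ hw hτ hdix δ hδ.le hδ1 hwb Q m l hQ hq hm hl (B l)
        (hB0 l) (hBm l)⟩) n hn
  exact (hBm n X).trans (mul_le_mul_of_nonneg_right hgr (norm_nonneg X))

end H759R2.Kad
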